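import Pool.Agent.Helper64.BKA.U1

/-!
# The formula for ratios of successive critical values descends along relations between characters
-/

set_option autoImplicit false

open BKA NumberField

namespace Pool.Agent.Results.MP_c63a07_nt.BrauerDescent

/-- `M` is a pure motive `M₀` of rank `n` over the totally imaginary field `F` with coefficients in
`E`, `L / F` a finite Galois extension, `τ` a representation of its Galois group over `E`, whose
character is a combination of characters induced from characters `χ i` of subgroups `H i`. -/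
theorem result (F L E E' : Type) [Field F] [NumberField F] [Field L] [NumberField L] [Algebra F L]
    [IsGalois F L] [Field E] [NumberField E] [Field E'] [NumberField E'] [Algebra E E']
    (_ : IsTotallyComplex F) (n : ℕ) (M : Mot F L E n)
    -- `m` and `m + 1` are critical
    (m : ℤ) (_ : M.Crit m) (_ : M.Crit (m + 1))
    -- the completed `L`-functions `Λ` of `M₀ ⊗ τ` over `F`, holomorphic at `m` and `m + 1`
    (r : ℕ) (τ : (L ≃ₐ[F] L) →* Matrix.GeneralLinearGroup (Fin r) E)
    (Λ : (E →+* ℂ) → ℂ → ℂ) (_ : ∀ ι, Contn (M.LR τ ι) (Λ ι) m)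
    -- the relation between `τ` and induced characters
    (N : ℕ) (H : Fin N → Subgroup (L ≃ₐ[F] L)) (χ : ∀ i, Ch E' (H i)) (c : Fin N → ℤ)
    (_ : ∀ x, algebraMap E E' (Matrix.trace (τ x : Matrix (Fin r) (Fin r) E)) =
      ∑ i, (c i : E') * ind (H i) (χ i).hom x)
    -- the completed `L`-functions `Λ'` of `M₀ ⊗ χ i` over the fields `L^(H i)`
    (Λ' : Fin N → (E' →+* ℂ) → ℂ → ℂ) (_ : ∀ i ι, Contn (M.LK (H i) (χ i) ι) (Λ' i ι) m)
    -- the formula for `M₀ ⊗ χ i` over the fields `L^(H i)`
    (_ : ∀ i, Ratio (IntermediateField.fixedField (H i)) E' n m (Λ' i)) :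
    -- the formula for `M₀ ⊗ τ` over `F`
    Ratio F E (n * r) m Λ :=
  u1 F L E E' ‹_› n M m r τ Λ ‹_› N H χ c ‹_› Λ' ‹_› ‹_›

end Pool.Agent.Results.MP_c63a07_nt.BrauerDescent
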