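import Pool.Agent.Helper94.PQ.AsmC

/-!
# The central pair of critical values of a conjugate self-dual motive
-/

set_option autoImplicit false

open BKA CP18 NumberField

namespace Pool.Agent.Results.MP_c63a07_nt.ConjugateSelfDual

/-- `M` is a motive `M₀` of rank `n` and weight `2 * m` over the totally imaginary field `F`, with
coefficients in `E`, which is conjugate self-dual for an involution `c` of `F`; if `n` is odd, `c`
induces complex conjugation on the maximal CM subfield. Nothing is assumed on the ramification. -/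
theorem result (F E : Type) [Field F] [NumberField F] [Field E] [NumberField E]
    -- the involution `c` of `F`
    (c : F ≃ₐ[ℚ] F) (_ : ∀ x, c (c x) = x) (_ : ∃ x, c x ≠ x)
    -- if the rank is odd: the maximal CM subfield
    (n : ℕ) (_ : Odd n → (∃ D : maximalRealSubfield F, IsCMElt F D) ∧
      ∀ (D : maximalRealSubfield F) (y : F), IsCMElt F D → y ^ 2 = D → c y = -y)
    -- the motive and the exponents of its conductor
    (m : ℤ) (M : MotT F E n (2 * m)) (a : Pl F →₀ ℕ)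
    (_ : ∀ v v' : Pl F, (∀ x y : 𝓞 F, (y : F) = c (x : F) → (x ∈ v.asIdeal ↔ y ∈ v'.asIdeal)) →
      a v = a v')
    -- the `ℓ`-adic realisations, conjugate orthogonal: `K ℓ` is the completion of `E` at a place
    -- over `ℓ`
    (K : ∀ (ℓ : ℕ) [Fact ℓ.Prime], Type) [∀ (ℓ : ℕ) [Fact ℓ.Prime], Field (K ℓ)]
    [∀ (ℓ : ℕ) [Fact ℓ.Prime], Algebra ℚ_[ℓ] (K ℓ)]
    [∀ (ℓ : ℕ) [Fact ℓ.Prime], TopologicalSpace (K ℓ)]
    [∀ (ℓ : ℕ) [Fact ℓ.Prime], IsTopologicalRing (K ℓ)]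
    [∀ (ℓ : ℕ) [Fact ℓ.Prime], T2Space (K ℓ)]
    (R : ∀ (ℓ : ℕ) [Fact ℓ.Prime], PQ.ConjOrthK F c n m ℓ (K ℓ))
    -- `a v` is the exponent of the conductor, at the places where `c` is in the inertia group
    (_ : ∀ v : Pl F, (∀ x y : 𝓞 F, (y : F) = c (x : F) → y - x ∈ v.asIdeal) →
      ∀ (ℓ : ℕ) [Fact ℓ.Prime], (ℓ : 𝓞 F) ∉ v.asIdeal → PQ.IsCond (R ℓ).ρ v (a v))
    -- the completed `L`-functions, holomorphic at `m` and `m + 1`, not zero at `m + 1`
    (Λ : (E →+* ℂ) → ℂ → ℂ) (_ : ∀ ι, Contn (M.L ι) (Λ ι) m) (_ : ∀ ι, Λ ι (m + 1) ≠ 0)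
    -- the functional equation
    (ε : ℤ) (_ : ε = 1 ∨ ε = -1) (_ : ∀ ι, FunEq (Λ ι) (2 * m) (cond F n a) ε) :
    -- the formula holds at `m`
    (M.Crit m ∧ M.Crit (m + 1) ∧ Ratio F E n m Λ) ∧
      -- and at `2 * m - j` if it holds at `j`
      (∀ j : ℤ, (∀ ι, AnalyticAt ℂ (Λ ι) j ∧ AnalyticAt ℂ (Λ ι) (j + 1) ∧
        AnalyticAt ℂ (Λ ι) ((2 * m - j : ℤ) : ℂ) ∧ AnalyticAt ℂ (Λ ι) ((2 * m - j : ℤ) + 1)) →
      Ratio F E n j Λ → Ratio F E n (2 * m - j) Λ) ∧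
      -- and `m, m + 1` is the only pair of critical integers if the Hodge type `(m - 1, m + 1)`
      -- occurs
      ((∃ ι, M.h ι (m - 1) ≠ 0) → ∀ j : ℤ, M.Crit j → M.Crit (j + 1) → j = m) :=
  PQ.Asm.finalD F E c ‹_› ‹_› n ‹_› m M a ‹_› K R ‹_› Λ ‹_› ‹_› ε ‹_› ‹_›

end Pool.Agent.Results.MP_c63a07_nt.ConjugateSelfDual
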