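import Pool.Agent.Helper19.BKA.GRP
import Pool.Agent.Helper64.BKA.U2

/-!
# The formula for ratios of successive critical values descends along relations between induced
motives
-/

set_option autoImplicit false

open BKA NumberField

namespace Pool.Agent.Results.MP_c63a07_nt.InducedMotives

/-- `M` is a motive `M₀` of rank `n` over an extension `K₀` of a totally imaginary field `F`, with
coefficients in `E`. After extension of the coefficients to `E'`, the motive over `F` induced from
`M₀` is a combination with integral coefficients `c i` of the motives over `F` induced from motives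
`M' i` over extensions `K i` of `F`. -/
theorem result (F K₀ E E' : Type) [Field F] [NumberField F] [Field K₀] [NumberField K₀]
    [Algebra F K₀] [Field E] [NumberField E] [Field E'] [NumberField E'] [Algebra E E']
    (_ : IsTotallyComplex F) (n : ℕ) (w : ℤ) (M : MotT K₀ E n w)
    -- `m` and `m + 1` are critical
    (m : ℤ) (_ : M.Crit m) (_ : M.Crit (m + 1))
    -- the motives `M' i` over the extensions `K i` of `F`
    (N : ℕ) (K : Fin N → Type) [∀ i, Field (K i)] [∀ i, NumberField (K i)] [∀ i, Algebra F (K i)]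
    (d : Fin N → ℕ) (M' : ∀ i, MotT (K i) E' (d i) w) (c : Fin N → ℤ)
    -- the relation between the traces at all places of `F`
    (_ : ∀ v k, algebraMap E E' (indT (F := F) M.κ v k) =
      ∑ i, (c i : E') * indT (F := F) (M' i).κ v k)
    -- the relation between the Hodge numbers
    (_ : ∀ (ι : E' →+* ℂ) p, (M.h (ι.comp (algebraMap E E')) p : ℤ) =
      ∑ i, c i * ((M' i).h ι p : ℤ))
    -- the completed `L`-functions of the `M' i`, holomorphic at `m` and `m + 1`
    (Λ' : Fin N → (E' →+* ℂ) → ℂ → ℂ) (_ : ∀ i ι, Contn ((M' i).L ι) (Λ' i ι) m)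
    -- the formula for the `M' i` over the fields `K i`
    (_ : ∀ i, Ratio (K i) E' (d i) m (Λ' i)) :
    -- the completed `L`-functions of `M₀` have a continuation, holomorphic at `m` and `m + 1`,
    -- and the formula holds for it
    (∃ Λ : (E →+* ℂ) → ℂ → ℂ, ∀ ι, Contn (M.L ι) (Λ ι) m) ∧
      ∀ Λ : (E →+* ℂ) → ℂ → ℂ, (∀ ι, Contn (M.L ι) (Λ ι) m) → Ratio K₀ E n m Λ :=
  ⟨u2c st_GRP F K₀ E E' n w M m N K d M' c ‹_› ‹_› Λ' ‹_› ‹_›,
    fun Λ hΛ => u2 st_GRP F K₀ E E' ‹_› n w M m Λ hΛ N K d M' c ‹_› ‹_› Λ' ‹_› ‹_›⟩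

end Pool.Agent.Results.MP_c63a07_nt.InducedMotives
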