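import Pool.Agent.Helper94.PQ.AsmT

/-!
# The central pair of critical values of a motive of even weight with totally real coefficients
-/

set_option autoImplicit false

open BKA NumberField

namespace Pool.Agent.Results.MP_c63a07_nt.TotallyRealCoefficients

/-- `M` is a motive `M₀` of rank `n` and even weight `2 * m` over the totally imaginary field `F`,
with coefficients in the totally real field `E` (for example `E = ℚ`), such that the restriction of
scalars has no middle Hodge type. Nothing is assumed on the ramification. -/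
theorem result (F E : Type) [Field F] [NumberField F] [IsTotallyComplex F] [Field E]
    [NumberField E] [IsTotallyReal E]
    -- the motive
    (n : ℕ) (m : ℤ) (M : MotT F E n (2 * m))
    -- the determinant is `ℚ(-n m)` twisted by the quadratic character of `F (√δ) / F`
    (δ : F) (_ : δ ≠ 0)
    -- the discriminant of the polarised Betti realisation, totally positive
    (b : E) (_ : ∀ ι : E →+* ℂ, 0 < (ι b).re)
    -- the `ℓ`-adic realisations, for all `ℓ`, with the pairings given by the polarisation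
    (R : ∀ (ℓ : ℕ) [Fact ℓ.Prime], PQ.RealT F E n m δ b ℓ)
    -- the exponents of the conductor
    (a : Pl F →₀ ℕ)
    (_ : ∀ (ℓ : ℕ) [Fact ℓ.Prime] (v : Pl F), (ℓ : 𝓞 F) ∉ v.asIdeal →
      ∀ i, PQ.IsCond ((R ℓ).orth i).ρ v (a v))
    -- the completed `L`-functions, holomorphic at `m` and `m + 1`, not zero at `m + 1`
    (Λ : (E →+* ℂ) → ℂ → ℂ) (_ : ∀ ι, Contn (M.L ι) (Λ ι) m) (_ : ∀ ι, Λ ι (m + 1) ≠ 0)
    -- the functional equation
    (ε : ℤ) (_ : ε = 1 ∨ ε = -1) (_ : ∀ ι, CP18.FunEq (Λ ι) (2 * m) (CP18.cond F n a) ε) :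
    -- the formula holds at `m`
    (M.Crit m ∧ M.Crit (m + 1) ∧ Ratio F E n m Λ) ∧
      -- and at `2 * m - j` if it holds at `j`
      (∀ j : ℤ, (∀ ι, AnalyticAt ℂ (Λ ι) j ∧ AnalyticAt ℂ (Λ ι) (j + 1) ∧
        AnalyticAt ℂ (Λ ι) ((2 * m - j : ℤ) : ℂ) ∧ AnalyticAt ℂ (Λ ι) ((2 * m - j : ℤ) + 1)) →
      Ratio F E n j Λ → Ratio F E n (2 * m - j) Λ) ∧
      -- and `m, m + 1` is the only pair of critical integers if the Hodge type `(m - 1, m + 1)`
      -- occurs
      ((∃ ι, M.h ι (m - 1) ≠ 0) → ∀ j : ℤ, M.Crit j → M.Crit (j + 1) → j = m) :=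
  PQ.Asm.final F E n m M δ ‹_› b ‹_› R a ‹_› Λ ‹_› ‹_› ε ‹_› ‹_›

end Pool.Agent.Results.MP_c63a07_nt.TotallyRealCoefficients
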